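import Pool.Agent.N909.CL.Def

/-!
# Starting points with the same value after a word (leaf D of the project CL)
-/

set_option autoImplicit false

namespace Pool.Agent.N645.CL

open Pool.Agent.R528.RM Pool.Agent.N909.CM Pool.Agent.N909.CL

theorem sum_Icc_one (f : ℕ → ℝ) (n : ℕ) : ∑ j ∈ Finset.Icc 1 n, f j = ∑ i ∈ Finset.range n, f (i + 1) := by
  induction n with
  | zero => simp
  | succ n ih => rw [Finset.sum_Icc_succ_top (by omega), Finset.sum_range_succ, ih]

/-- the length of the interval -/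
noncomputable def dd (v : List Bool) : ℝ :=
  1 / 2 * ∑ j ∈ Finset.Icc 1 v.length, (2 : ℝ) ^ j / 3 ^ ((v.take j).count true)

theorem dd_nil : dd [] = 0 := by simp [dd]

theorem dd_cons (d : Bool) (w : List Bool) :
    dd (d :: w) = (if d then 2 / 3 else 2) * (1 / 2 + dd w) := by
  unfold dd
  rw [sum_Icc_one, sum_Icc_one, List.length_cons, Finset.sum_range_succ']
  have h : ∀ i : ℕ, (2 : ℝ) ^ (i + 1 + 1) / 3 ^ (((d :: w).take (i + 1 + 1)).count true) =
      (if d then 2 / 3 else 2) * ((2 : ℝ) ^ (i + 1) / 3 ^ ((w.take (i + 1)).count true)) := by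
    intro i
    cases d
    · simp only [List.take_succ_cons, Bool.false_eq_true, if_false]
      rw [List.count_cons_of_ne (by simp)]
      ring
    · simp only [List.take_succ_cons, if_true]
      rw [List.count_cons_self]
      rw [pow_succ 3, pow_succ 2 (i + 1)]
      field_simp
  rw [Finset.sum_congr rfl (fun i _ => h i), ← Finset.mul_sum]
  cases d
  · simp
    ring
  · simp
    ring

theorem stp_mono (d : Bool) {a b : ℕ} (h : a ≤ b) : stp d a ≤ stp d b := by
  unfold stp
  cases d
  · simp only [Bool.false_eq_true, if_false]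
    omega
  · simp only [if_true]
    omega

theorem stp_diff (d : Bool) (a b : ℕ) :
    ((b : ℝ) - a) ≤ (if d then 2 / 3 else 2) * (1 / 2 + ((stp d b : ℝ) - stp d a)) := by
  unfold stp
  cases d
  · simp only [Bool.false_eq_true, if_false]
    have h1 : b ≤ 2 * (b / 2) + 1 := by omega
    have h2 : 2 * (a / 2) ≤ a := by omega
    have h1' : (b : ℝ) ≤ 2 * ((b / 2 : ℕ) : ℝ) + 1 := by exact_mod_cast h1
    have h2' : 2 * ((a / 2 : ℕ) : ℝ) ≤ a := by exact_mod_cast h2
    linarith
  · simp only [if_true]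
    have h1 : 3 * b ≤ 2 * ((3 * b + 1) / 2) := by omega
    have h2 : 2 * ((3 * a + 1) / 2) ≤ 3 * a + 1 := by omega
    have h1' : 3 * (b : ℝ) ≤ 2 * (((3 * b + 1) / 2 : ℕ) : ℝ) := by exact_mod_cast h1
    have h2' : 2 * (((3 * a + 1) / 2 : ℕ) : ℝ) ≤ 3 * a + 1 := by exact_mod_cast h2
    linarith

theorem diff_le (v : List Bool) : ∀ a b : ℕ, a ≤ b → val a v = val b v → (b : ℝ) - a ≤ dd v := by
  induction v with
  | nil =>
    intro a b _ h
    have h' : a = b := h
    rw [h', dd_nil, sub_self]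
  | cons d w ih =>
    intro a b hab h
    have h' : val (stp d a) w = val (stp d b) w := h
    have h1 := ih _ _ (stp_mono d hab) h'
    refine (stp_diff d a b).trans ?_
    rw [dd_cons]
    refine mul_le_mul_of_nonneg_left (by linarith) ?_
    split_ifs <;> norm_num

theorem t : StmD := by
  intro v z
  have hdd : (1 : ℝ) + 1 / 2 * ∑ j ∈ Finset.Icc 1 v.length, (2 : ℝ) ^ j / 3 ^ ((v.take j).count true) = 1 + dd v := rfl
  rw [hdd]
  have h0 : 0 ≤ dd v := by
    unfold dd
    positivity
  rcases Set.eq_empty_or_nonempty {n : ℕ | val n v = z} with he | hne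
  · rw [he]
    refine ⟨Set.finite_empty, ?_⟩
    simp only [Set.ncard_empty, Nat.cast_zero]
    linarith
  · classical
    obtain ⟨m, hm, hmin⟩ : ∃ m : ℕ, val m v = z ∧ ∀ n, val n v = z → m ≤ n :=
      ⟨Nat.find hne, Nat.find_spec hne, fun n hn => Nat.find_min' hne hn⟩
    have hsub : {n : ℕ | val n v = z} ⊆ (Finset.Icc m (m + ⌊dd v⌋₊) : Finset ℕ) := by
      intro n hn
      have hn' : val n v = z := hn
      have h1 := hmin n hn'
      have h2 := diff_le v m n h1 (hm.trans hn'.symm)
      rw [Finset.coe_Icc, Set.mem_Icc]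
      refine ⟨h1, ?_⟩
      have h3 : ((n - m : ℕ) : ℝ) ≤ dd v := by
        rw [Nat.cast_sub h1]
        exact h2
      have h4 : n - m ≤ ⌊dd v⌋₊ := Nat.le_floor h3
      omega
    refine ⟨(Finset.finite_toSet _).subset hsub, ?_⟩
    have h5 := Set.ncard_le_ncard hsub (Finset.finite_toSet _)
    rw [Set.ncard_coe_finset, Nat.card_Icc] at h5
    have h6 : ({n : ℕ | val n v = z}).ncard ≤ ⌊dd v⌋₊ + 1 := by omega
    have h7 : (({n : ℕ | val n v = z}).ncard : ℝ) ≤ (⌊dd v⌋₊ : ℝ) + 1 := by exact_mod_cast h6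
    have h8 := Nat.floor_le h0
    linarith

end Pool.Agent.N645.CL
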